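import Pool.Agent.H34.FQ.Targets
import Pool.Agent.H75.RQ.PXY

/-!
Row PX1 of hfq_modules (helper20): the frequencies of the correlation (twin: H75/RQ/PXY).
-/

set_option autoImplicit false

open Finset Pool.Agent.H32.RQ Pool.Agent.H34.FQ

namespace Pool.Agent.H20.HFQ

open Pool.Agent.H75.RQ (Frq frq_int gm_pos cramer fibre)

theorem px1_ex (hST1 : T_ST1) (hCLS : T_CLS) {s B K D A J Q : ℕ} [NeZero Q] (x y : Fin s → ℤ)
    (hA : 1 ≤ A) (hcA : 2 * B ^ 2 ≤ D * A) (hQ : Q = 2 * A * J)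
    (gx : Gv B K D x) (gy : Gv B K D y) (hd : dm x y ≠ 0) (z : ZMod Q × ZMod Q)
    (hz : z ∈ zs Q J x y) : ∃ α β : ℚ, Frq Q J x y z α β := by
  have hAR : (0 : ℝ) < A := by exact_mod_cast hA
  have hQ0 : 0 < Q := Nat.pos_of_ne_zero (NeZero.ne Q)
  have hQR : (0 : ℝ) < Q := by exact_mod_cast hQ0
  have hQe : (Q : ℝ) = 2 * A * J := by rw [hQ]; push_cast; ring
  choose M hM using fun p : Mon s => frq_int Q J x y z hz p
  have hnu : ∀ (u : Fin s → ℤ) (i l : Fin s),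
      nu u (⟨(min i l, max i l), min_le_max⟩ : Mon s) = u i * u l := by
    intro u i l
    unfold nu
    rcases le_total i l with h | h
    · simp only [min_eq_left h, max_eq_right h]
    · simp only [min_eq_right h, max_eq_left h]
      ring
  have hMR : ∀ p : Mon s, |(z.1.val : ℝ) * ((nu x p : ℤ) : ℝ) + (z.2.val : ℝ) * ((nu y p : ℤ) : ℝ) -
      Q * (M p : ℝ)| < J := by
    intro p
    have h1 : ((|(z.1.val : ℤ) * nu x p + (z.2.val : ℤ) * nu y p - Q * M p| : ℤ) : ℝ) <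
        (((J : ℤ)) : ℝ) := by exact_mod_cast hM p
    push_cast at h1
    exact h1
  obtain ⟨α, β, hab⟩ := hST1 s B D x y (2 * A) (z.1.val / Q) (z.2.val / Q)
    (fun i l => M ⟨(min i l, max i l), min_le_max⟩) gx.bd gy.bd gx.iso gy.iso hd (by positivity) (by
      have : ((2 * B ^ 2 : ℕ) : ℝ) ≤ ((D * A : ℕ) : ℝ) := by exact_mod_cast hcA
      push_cast at this
      linarith) (fun i l => by simp only [min_comm i l, max_comm i l]) (by
      intro i l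
      have h1 := hMR ⟨(min i l, max i l), min_le_max⟩
      rw [hnu x i l, hnu y i l] at h1
      have h2 : (z.1.val : ℝ) / Q * x i * x l + (z.2.val : ℝ) / Q * y i * y l -
          (M ⟨(min i l, max i l), min_le_max⟩ : ℝ) =
          ((z.1.val : ℝ) * ((x i * x l : ℤ) : ℝ) + (z.2.val : ℝ) * ((y i * y l : ℤ) : ℝ) -
          Q * (M ⟨(min i l, max i l), min_le_max⟩ : ℝ)) / Q := by
        field_simp
        push_cast
        ring
      rw [h2, abs_div, abs_of_pos hQR, div_lt_iff₀ hQR]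
      refine h1.trans_le (le_of_eq ?_)
      rw [hQe]
      field_simp)
  have hint : ∀ i l, ∃ m : ℤ, (m : ℚ) = α * x i * x l + β * y i * y l :=
    fun i l => ⟨_, hab i l⟩
  obtain ⟨h3, h4⟩ := hCLS s x y α β gx.prm gy.prm hd hint
  refine ⟨α, β, ?_, hint, h3, h4⟩
  intro p
  obtain ⟨⟨i, l⟩, hil⟩ := p
  have h5 := hab i l
  have hil' : i ≤ l := hil
  simp only [min_eq_left hil', max_eq_right hil'] at h5
  have h6 := hMR ⟨(i, l), hil⟩
  have h7 : ((M ⟨(i, l), hil⟩ : ℤ) : ℝ) = (α : ℝ) * ((nu x (⟨(i, l), hil⟩ : Mon s) : ℤ) : ℝ) +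
      (β : ℝ) * ((nu y (⟨(i, l), hil⟩ : Mon s) : ℤ) : ℝ) := by
    have h8 : ((M ⟨(i, l), hil⟩ : ℚ) : ℝ) = ((α * x i * x l + β * y i * y l : ℚ) : ℝ) := by
      rw [h5]
    push_cast at h8
    rw [h8]
    unfold nu
    push_cast
    ring
  rw [h7] at h6
  exact h6

theorem px1_nu {s B K D : ℕ} (y : Fin s → ℤ) (gy : Gv B K D y) (p : Mon s) :
    |((nu y p : ℤ) : ℝ)| ≤ (B : ℝ) ^ 2 := by
  have h1 : ∀ i, |(y i : ℝ)| ≤ (B : ℝ) := by
    intro i
    have h2 : ((|y i| : ℤ) : ℝ) ≤ ((B : ℤ) : ℝ) := by exact_mod_cast gy.bd i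
    push_cast at h2
    exact h2
  unfold nu
  push_cast
  rw [abs_mul]
  calc _ ≤ (B : ℝ) * (B : ℝ) := mul_le_mul (h1 _) (h1 _) (abs_nonneg _) (by positivity)
    _ = (B : ℝ) ^ 2 := by ring

theorem px1_two {s B K D J Q W : ℕ} [NeZero Q] (x y : Fin s → ℤ) (p q : Mon s) (Δ : ℕ)
    (hW : 1 ≤ W) (hWQ : W ∣ Q) (gy : Gv B K D y)
    (hd : dm x y ≠ 0) (hΔ : Δ = (nu x p * nu y q - nu x q * nu y p).natAbs) (hg : gm x y ∣ W)
    (z : ZMod Q × ZMod Q) (α β : ℚ) (hf : Frq Q J x y z α β) : ∃ a n : ℤ,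
      z.1 = ((n + a * ((Q / W : ℕ) : ℤ) : ℤ) : ZMod Q) ∧ |n| * Δ ≤ 2 * J * (B : ℤ) ^ 2 := by
  obtain ⟨h1, -, ⟨a₁, ha₁⟩, -⟩ := hf
  obtain ⟨w, hw⟩ := hg
  obtain ⟨r, hr⟩ := hWQ
  have hg0 : 1 ≤ gm x y := gm_pos x y hd
  have hQW : Q / W = r := by
    rw [hr]
    exact Nat.mul_div_cancel_left r hW
  refine ⟨a₁ * w, (z.1.val : ℤ) - a₁ * w * (r : ℤ), ?_, ?_⟩
  · rw [hQW, sub_add_cancel]
    push_cast
    rw [ZMod.natCast_zmod_val]
  · have h2 : (((z.1.val : ℤ) - a₁ * w * (r : ℤ) : ℤ) : ℝ) = (z.1.val : ℝ) - Q * (α : ℝ) := by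
      have h3 : (a₁ : ℝ) = (gm x y : ℝ) * (α : ℝ) := by
        have h4 : ((a₁ : ℚ) : ℝ) = (((gm x y : ℚ) * α : ℚ) : ℝ) := by rw [ha₁]
        push_cast at h4
        exact h4
      have h5 : (Q : ℝ) = (gm x y : ℝ) * w * r := by
        have h6 : Q = gm x y * w * r := by
          conv_lhs => rw [hr, hw]
        rw [h6]
        push_cast
        ring
      push_cast
      rw [h3, h5]
      ring
    have h7 := cramer (z.1.val : ℝ) (z.2.val : ℝ) Q J ((nu x p : ℤ) : ℝ) ((nu y p : ℤ) : ℝ)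
      ((nu x q : ℤ) : ℝ) ((nu y q : ℤ) : ℝ) α β ((B : ℝ) ^ 2) (h1 p).le (h1 q).le (px1_nu y gy p)
      (px1_nu y gy q) (Nat.cast_nonneg _)
    rw [← h2] at h7
    have h8 : |((nu x p : ℤ) : ℝ) * ((nu y q : ℤ) : ℝ) - ((nu x q : ℤ) : ℝ) * ((nu y p : ℤ) : ℝ)| =
        (Δ : ℝ) := by
      rw [hΔ, Nat.cast_natAbs]
      push_cast
      rfl
    rw [h8] at h7
    have h9 : ((|(z.1.val : ℤ) - a₁ * w * (r : ℤ)| * (Δ : ℤ) : ℤ) : ℝ) ≤
        ((2 * J * (B : ℤ) ^ 2 : ℤ) : ℝ) := by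
      push_cast
      push_cast at h7
      exact h7
    exact_mod_cast h9

/-- **PX1.** -/
theorem pf_PX1 (hST1 : T_ST1) (hCLS : T_CLS) (hCL2 : T_CL2) (hCNT : T_CNT) : T_PX1 := by
  intro s B K D A J Q W _ x y p q Δ hA hcA hQ hW hWQ gx gy hd hΔ h1Δ hΔJ
  have hex : ∀ z ∈ zs Q J x y, ∃ α β : ℚ, Frq Q J x y z α β := fun z hz =>
    px1_ex hST1 hCLS x y hA hcA hQ gx gy hd z hz
  choose! al be hab using hex
  refine ⟨?_, fun hg z hz => px1_two x y p q Δ hW hWQ gy hd hΔ hg z _ _ (hab z hz)⟩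
  have hg0 : 1 ≤ gm x y := gm_pos x y hd
  have : NeZero (gm x y) := ⟨by omega⟩
  have hgQ : (gm x y : ℚ) ≠ 0 := by
    have : gm x y ≠ 0 := by omega
    exact_mod_cast this
  -- the classes
  have hb2 : ∀ z ∈ zs Q J x y, ∃ a : ℤ, (gm x y : ℚ) * be z = a := fun z hz => (hab z hz).2.2.2
  choose! bb hbb using hb2
  have hcard : (zs Q J x y).card = ∑ t : ZMod (gm x y),
      ((zs Q J x y).filter fun z => (bb z : ZMod (gm x y)) = t).card :=
    Finset.card_eq_sum_card_fiberwise (fun z _ => Finset.mem_univ _)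
  have hfib : ∀ t : ZMod (gm x y),
      (((zs Q J x y).filter fun z => (bb z : ZMod (gm x y)) = t).card : ℝ) * Δ ≤
        9 * (J : ℝ) ^ 2 := by
    intro t
    refine fibre hCL2 hCNT x y p q Δ gx.prm hΔ h1Δ hΔJ _ al be
      (fun z hz => hab z (Finset.mem_filter.1 hz).1) ?_
    intro z hz z' hz'
    obtain ⟨h1, h2⟩ := Finset.mem_filter.1 hz
    obtain ⟨h3, h4⟩ := Finset.mem_filter.1 hz'
    have h5 : ((bb z - bb z' : ℤ) : ZMod (gm x y)) = 0 := by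
      push_cast
      rw [h2, h4, sub_self]
    obtain ⟨u, hu⟩ := (ZMod.intCast_zmod_eq_zero_iff_dvd _ (gm x y)).1 h5
    refine ⟨u, ?_⟩
    have h6 : (gm x y : ℚ) * (be z - be z') = (gm x y : ℚ) * u := by
      rw [mul_sub, hbb z h1, hbb z' h3]
      exact_mod_cast hu
    exact mul_left_cancel₀ hgQ h6
  rw [hcard]
  push_cast
  rw [Finset.sum_mul]
  calc ∑ t : ZMod (gm x y), (((zs Q J x y).filter fun z => (bb z : ZMod (gm x y)) = t).card : ℝ) * Δ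
      ≤ ∑ _t : ZMod (gm x y), 9 * (J : ℝ) ^ 2 := Finset.sum_le_sum fun t _ => hfib t
    _ = 9 * gm x y * (J : ℝ) ^ 2 := by
        rw [Finset.sum_const, Finset.card_univ, ZMod.card, nsmul_eq_mul]
        ring

end Pool.Agent.H20.HFQ
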