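import Pool.Agent.H34.FQ.Targets
import Pool.Agent.H6.RQ.SMM

/-!
Row SM1 of hfq_modules (helper20): the sum over the pairs (twin: H6/RQ/SMM).
-/

set_option autoImplicit false

open Finset Pool.Agent.H32.RQ Pool.Agent.H34.FQ

namespace Pool.Agent.H20.HFQ

open Pool.Agent.H6.RQ (geo inv_sq inv_sq' pow_inv)

theorem sm1_clog (D : ℕ) (hD : 1 ≤ D) : D ≤ 2 ^ Nat.clog 2 D ∧ 2 ^ Nat.clog 2 D < 2 * D := by
  refine ⟨Nat.le_pow_clog (by norm_num) D, ?_⟩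
  rcases Nat.lt_or_ge 1 D with h | h
  · have h1 : 0 < Nat.clog 2 D := Nat.clog_pos (by norm_num) h
    have h2 := Nat.pow_pred_clog_lt_self (b := 2) (by norm_num) h
    rw [Nat.pred_eq_sub_one] at h2
    have h3 : Nat.clog 2 D = (Nat.clog 2 D - 1) + 1 := by omega
    calc 2 ^ Nat.clog 2 D = 2 ^ ((Nat.clog 2 D - 1) + 1) := by rw [← h3]
      _ = 2 * 2 ^ (Nat.clog 2 D - 1) := by rw [pow_succ']
      _ < 2 * D := by omega
  · obtain rfl : D = 1 := by omega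
    simp

/-- geometric sums with an upper bound for the terms -/
theorem sm1_geo (n N : ℕ) (hn : 1 ≤ n) (Z : ℝ) (hZ : 0 ≤ Z) :
    ∑ k ∈ (range N).filter (fun k => (2 : ℝ) ^ k < Z), ((2 : ℝ) ^ k) ^ n ≤ 2 * Z ^ n := by
  rcases ((range N).filter (fun k => (2 : ℝ) ^ k < Z)).eq_empty_or_nonempty with h | h
  · rw [h, sum_empty]
    positivity
  · obtain ⟨k₀, hk₀, hmax⟩ := ((range N).filter (fun k => (2 : ℝ) ^ k < Z)).exists_max_image id h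
    have h1 : (range N).filter (fun k => (2 : ℝ) ^ k < Z) ⊆ range (k₀ + 1) := by
      intro k hk
      have : k ≤ k₀ := hmax k hk
      exact mem_range.2 (by omega)
    have h2 : (2 : ℝ) ^ k₀ < Z := (mem_filter.1 hk₀).2
    calc ∑ k ∈ (range N).filter (fun k => (2 : ℝ) ^ k < Z), ((2 : ℝ) ^ k) ^ n ≤
          ∑ k ∈ range (k₀ + 1), ((2 : ℝ) ^ k) ^ n :=
          sum_le_sum_of_subset_of_nonneg h1 fun k _ _ => by positivity
      _ ≤ 2 * ((2 : ℝ) ^ k₀) ^ n := geo n k₀ hn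
      _ ≤ 2 * Z ^ n := mul_le_mul_of_nonneg_left
          (pow_le_pow_left₀ (by positivity) h2.le n) (by norm_num)

/-- one class, first bound -/
theorem sm1_one (m : ℕ) (g q x C₀ κ Y c : ℝ) (hg : 1 ≤ g) (hq : 0 < q) (hx : 0 < x)
    (hC : 0 ≤ C₀) (hκ : 0 ≤ κ) (hY : 0 ≤ Y)
    (hc : c ≤ C₀ * Y * (q / x ^ 2) ^ (m + 4) / g ^ (m + 4)) (b : Prop) [Decidable b] :
    c * (g * (2 / q) * x ^ 2 * (if b then κ * x ^ 2 * (2 / q) else 1)) ≤
      if b then 4 * κ * C₀ * Y * (q / x ^ 2) ^ (m + 2) * (g ^ 2)⁻¹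
        else 2 * C₀ * Y * (q / x ^ 2) ^ (m + 3) * (g ^ 2)⁻¹ := by
  have hg0 : 0 < g := by linarith
  have h1 : (g ^ (m + 3))⁻¹ ≤ (g ^ 2)⁻¹ :=
    inv_anti₀ (by positivity) (pow_le_pow_right₀ hg (by omega))
  have h2 : 0 ≤ g * (2 / q) * x ^ 2 * (if b then κ * x ^ 2 * (2 / q) else 1) := by
    split_ifs <;> positivity
  refine (mul_le_mul_of_nonneg_right hc h2).trans ?_
  have e0 : q / x ^ 2 ≠ 0 := by positivity
  split_ifs
  · have e : C₀ * Y * (q / x ^ 2) ^ (m + 4) / g ^ (m + 4) *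
        (g * (2 / q) * x ^ 2 * (κ * x ^ 2 * (2 / q))) =
        4 * κ * C₀ * Y * (q / x ^ 2) ^ (m + 2) * (g ^ (m + 3))⁻¹ := by
      have h3 : (q / x ^ 2) ^ (m + 4) = (q / x ^ 2) ^ (m + 2) * (q / x ^ 2) ^ 2 := by
        rw [← pow_add]
      have h4 : g ^ (m + 4) = g ^ (m + 3) * g := by rw [← pow_succ]
      rw [h3, h4]
      generalize (q / x ^ 2) ^ (m + 2) = z
      field_simp
      ring
    rw [e]
    exact mul_le_mul_of_nonneg_left h1 (by positivity)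
  · have e : C₀ * Y * (q / x ^ 2) ^ (m + 4) / g ^ (m + 4) * (g * (2 / q) * x ^ 2 * 1) =
        2 * C₀ * Y * (q / x ^ 2) ^ (m + 3) * (g ^ (m + 3))⁻¹ := by
      have h3 : (q / x ^ 2) ^ (m + 4) = (q / x ^ 2) ^ (m + 3) * (q / x ^ 2) := by
        rw [← pow_succ]
      have h4 : g ^ (m + 4) = g ^ (m + 3) * g := by rw [← pow_succ]
      rw [h3, h4]
      generalize (q / x ^ 2) ^ (m + 3) = z
      field_simp
    rw [e]
    exact mul_le_mul_of_nonneg_left h1 (by positivity)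

/-- one class, second bound -/
theorem sm1_two (m : ℕ) (g q x C₀ K c : ℝ) (hg : 1 ≤ g) (hq : 0 < q) (hx : 0 < x)
    (hC : 0 ≤ C₀) (hK : 0 ≤ K) (hc : c ≤ C₀ * x ^ 2 * (q / g) ^ (m + 3)) :
    c * (K * g * x ^ 4 * (4 / q ^ 2)) ≤ 4 * K * C₀ * x ^ 6 * q ^ (m + 1) * (g ^ 2)⁻¹ := by
  have hg0 : 0 < g := by linarith
  have h1 : (g ^ (m + 2))⁻¹ ≤ (g ^ 2)⁻¹ :=
    inv_anti₀ (by positivity) (pow_le_pow_right₀ hg (by omega))
  refine (mul_le_mul_of_nonneg_right hc (by positivity)).trans ?_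
  have e : C₀ * x ^ 2 * (q / g) ^ (m + 3) * (K * g * x ^ 4 * (4 / q ^ 2)) =
      4 * K * C₀ * x ^ 6 * q ^ (m + 1) * (g ^ (m + 2))⁻¹ := by
    have h3 : q ^ (m + 3) = q ^ (m + 1) * q ^ 2 := by rw [← pow_add]
    have h4 : g ^ (m + 3) = g ^ (m + 2) * g := by rw [← pow_succ]
    rw [div_pow, h3, h4]
    field_simp
  rw [e]
  exact mul_le_mul_of_nonneg_left h1 (by positivity)

theorem pf_SM1 : T_SM1 := by
  classical
  intro n K hn hK
  obtain ⟨m, rfl⟩ : ∃ m, n = m + 4 := ⟨n - 4, by omega⟩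
  refine ⟨32 * (2 * (K : ℝ)) ^ (m + 3), by
    have : (0 : ℝ) < K := by exact_mod_cast hK
    positivity, ?_⟩
  intro ι P G D X W w C₀ κ Λ hX hC₀ hκ hκ1 hΛ hw hW hP hH2 hH3
  have e3 : m + 4 - 1 = m + 3 := by omega
  rw [e3] at hH2
  have hK0 : (1 : ℝ) ≤ K := by exact_mod_cast hK
  have hX0 : (1 : ℝ) ≤ X := by exact_mod_cast hX
  have hXp : (0 : ℝ) < X := by linarith
  have hw' : (1 : ℝ) ≤ w := by exact_mod_cast hw
  have hΛ0 : 0 < Λ := by linarith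
  set M := K * X ^ 2 with hM
  have hM1 : 1 ≤ M := Nat.mul_pos hK (pow_pos hX 2)
  set K' := Nat.clog 2 M with hK'
  have h2K : ((2 : ℝ) ^ K') ≤ 2 * (K * (X : ℝ) ^ 2) := by
    have := (sm1_clog M hM1).2.le
    have h : ((2 ^ Nat.clog 2 M : ℕ) : ℝ) ≤ ((2 * M : ℕ) : ℝ) := by exact_mod_cast this
    rw [hM] at h
    push_cast at h
    exact h
  set Y : ℝ := ((X : ℝ) ^ (m + 4) / Λ) ^ 2 with hY
  have hY0 : 0 ≤ Y := sq_nonneg _
  -- the classes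
  have hmaps : ∀ i ∈ P, (G i, Nat.clog 2 (D i)) ∈ Icc 1 M ×ˢ range (K' + 1) := by
    intro i hi
    obtain ⟨h1, h2, h3⟩ := hP i hi
    rw [mem_product, mem_Icc, mem_range]
    exact ⟨⟨h1, h2.trans h3⟩, Nat.lt_succ_of_le (Nat.clog_mono_right 2 h3)⟩
  rw [← sum_fiberwise_of_maps_to hmaps, sum_product]
  have hclass : ∀ g ∈ Icc 1 M, ∀ k ∈ range (K' + 1),
      ∑ i ∈ P.filter (fun i => (G i, Nat.clog 2 (D i)) = (g, k)),
        (G i : ℝ) / D i * X ^ 2 * (if G i ∣ W then κ * X ^ 2 / D i else 1) ≤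
      ((if g ∣ W then 4 * κ * C₀ * Y * ((2 : ℝ) ^ k / X ^ 2) ^ (m + 2) * ((g : ℝ) ^ 2)⁻¹
        else 2 * C₀ * Y * ((2 : ℝ) ^ k / X ^ 2) ^ (m + 3) * ((g : ℝ) ^ 2)⁻¹) +
      (if Λ ^ 3 < g then 4 * K * C₀ * X ^ 6 * ((2 : ℝ) ^ k) ^ (m + 1) * ((g : ℝ) ^ 2)⁻¹ else 0)) +
      (if (2 : ℝ) ^ k < X ^ 2 / Λ ^ 3 then
        4 * K * C₀ * X ^ 6 * ((2 : ℝ) ^ k) ^ (m + 1) * ((g : ℝ) ^ 2)⁻¹ else 0) := by
    intro g hg k _
    have hg1 : 1 ≤ g := (mem_Icc.1 hg).1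
    have hg1' : (1 : ℝ) ≤ g := by exact_mod_cast hg1
    have hg0 : (0 : ℝ) < g := by linarith
    have h2k : (0 : ℝ) < 2 ^ k := by positivity
    have hA0 : (0 : ℝ) ≤ (if g ∣ W then
        4 * κ * C₀ * Y * ((2 : ℝ) ^ k / X ^ 2) ^ (m + 2) * ((g : ℝ) ^ 2)⁻¹
        else 2 * C₀ * Y * ((2 : ℝ) ^ k / X ^ 2) ^ (m + 3) * ((g : ℝ) ^ 2)⁻¹) := by
      split_ifs <;> positivity
    have hB0 : (0 : ℝ) ≤ 4 * K * C₀ * X ^ 6 * ((2 : ℝ) ^ k) ^ (m + 1) * ((g : ℝ) ^ 2)⁻¹ := by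
      positivity
    have hB1 : (0 : ℝ) ≤ (if Λ ^ 3 < g then
        4 * K * C₀ * X ^ 6 * ((2 : ℝ) ^ k) ^ (m + 1) * ((g : ℝ) ^ 2)⁻¹ else 0) := by
      split_ifs
      · exact hB0
      · exact le_rfl
    have hB2 : (0 : ℝ) ≤ (if (2 : ℝ) ^ k < X ^ 2 / Λ ^ 3 then
        4 * K * C₀ * X ^ 6 * ((2 : ℝ) ^ k) ^ (m + 1) * ((g : ℝ) ^ 2)⁻¹ else 0) := by
      split_ifs
      · exact hB0
      · exact le_rfl
    -- the elements of the class
    have hel : ∀ i ∈ P.filter (fun i => (G i, Nat.clog 2 (D i)) = (g, k)),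
        G i = g ∧ (0 : ℝ) < D i ∧ (1 : ℝ) / D i ≤ 2 / 2 ^ k ∧ (D i : ℝ) ≤ K * X ^ 2 := by
      intro i hi
      obtain ⟨hi1, hi2⟩ := mem_filter.1 hi
      rw [Prod.mk.injEq] at hi2
      obtain ⟨hi3, hi4⟩ := hi2
      obtain ⟨p1, p2, p3⟩ := hP i hi1
      have hD1 : 1 ≤ D i := p1.trans p2
      have hD0 : (0 : ℝ) < D i := by exact_mod_cast hD1
      have hD2 : (2 : ℝ) ^ k ≤ 2 * D i := by
        have := (sm1_clog (D i) hD1).2.le
        rw [hi4] at this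
        exact_mod_cast this
      refine ⟨hi3, hD0, ?_, ?_⟩
      · rw [div_le_div_iff₀ hD0 h2k]
        linarith
      · have h : ((D i : ℕ) : ℝ) ≤ ((K * X ^ 2 : ℕ) : ℝ) := by exact_mod_cast p3
        push_cast at h
        exact h
    have hsub : P.filter (fun i => (G i, Nat.clog 2 (D i)) = (g, k)) ⊆
        P.filter fun i => G i = g ∧ D i ≤ 2 ^ k := by
      intro i hi
      obtain ⟨hi1, hi2⟩ := mem_filter.1 hi
      rw [Prod.mk.injEq] at hi2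
      obtain ⟨hi3, hi4⟩ := hi2
      refine mem_filter.2 ⟨hi1, hi3, ?_⟩
      have := (sm1_clog (D i) ((hP i hi1).1.trans (hP i hi1).2.1)).1
      rwa [hi4] at this
    have hcle : ((P.filter (fun i => (G i, Nat.clog 2 (D i)) = (g, k))).card : ℝ) ≤
        ((P.filter fun i => G i = g ∧ D i ≤ 2 ^ k).card : ℝ) := by
      exact_mod_cast card_le_card hsub
    by_cases hcase : (g : ℝ) ≤ Λ ^ 3 ∧ (X : ℝ) ^ 2 ≤ 2 ^ k * Λ ^ 3
    · have h1 : ∀ i ∈ P.filter (fun i => (G i, Nat.clog 2 (D i)) = (g, k)),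
          (G i : ℝ) / D i * X ^ 2 * (if G i ∣ W then κ * X ^ 2 / D i else 1) ≤
          (g : ℝ) * (2 / 2 ^ k) * X ^ 2 * (if g ∣ W then κ * X ^ 2 * (2 / 2 ^ k) else 1) := by
        intro i hi
        obtain ⟨q1, q2, q3, -⟩ := hel i hi
        rw [q1]
        refine mul_le_mul ?_ ?_ (by split_ifs <;> positivity) (by positivity)
        · refine mul_le_mul_of_nonneg_right ?_ (by positivity)
          rw [div_eq_mul_one_div]
          exact mul_le_mul_of_nonneg_left q3 hg0.le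
        · split_ifs
          · rw [div_eq_mul_one_div]
            exact mul_le_mul_of_nonneg_left q3 (by positivity)
          · exact le_rfl
      refine (sum_le_card_nsmul _ _ _ h1).trans ?_
      rw [nsmul_eq_mul]
      have h3 := hH3 g (2 ^ k) hg1 hcase.1 (by push_cast; exact hcase.2)
      push_cast at h3
      have h4 := sm1_one m g (2 ^ k) X C₀ κ Y _ hg1' h2k hXp hC₀ hκ hY0
        (hcle.trans (by rw [hY]; exact h3)) (g ∣ W)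
      linarith
    · have h1 : ∀ i ∈ P.filter (fun i => (G i, Nat.clog 2 (D i)) = (g, k)),
          (G i : ℝ) / D i * X ^ 2 * (if G i ∣ W then κ * X ^ 2 / D i else 1) ≤
          (K : ℝ) * g * X ^ 4 * (4 / (2 ^ k) ^ 2) := by
        intro i hi
        obtain ⟨q1, q2, q3, q4⟩ := hel i hi
        rw [q1]
        have hfac : (if g ∣ W then κ * X ^ 2 / D i else 1) ≤ K * X ^ 2 / (D i : ℝ) := by
          split_ifs
          · refine div_le_div_of_nonneg_right ?_ q2.le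
            exact mul_le_mul_of_nonneg_right (by linarith) (by positivity)
          · rw [le_div_iff₀ q2]
            linarith
        have hq2 : (1 : ℝ) / (D i : ℝ) ^ 2 ≤ 4 / ((2 : ℝ) ^ k) ^ 2 := by
          have := pow_le_pow_left₀ (by positivity) q3 2
          calc (1 : ℝ) / (D i : ℝ) ^ 2 = (1 / D i) ^ 2 := by ring
            _ ≤ (2 / 2 ^ k) ^ 2 := this
            _ = _ := by ring
        calc (g : ℝ) / D i * X ^ 2 * (if g ∣ W then κ * X ^ 2 / D i else 1) ≤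
              (g : ℝ) / D i * X ^ 2 * (K * X ^ 2 / (D i : ℝ)) :=
              mul_le_mul_of_nonneg_left hfac (by positivity)
          _ = (K : ℝ) * g * X ^ 4 * (1 / (D i : ℝ) ^ 2) := by ring
          _ ≤ (K : ℝ) * g * X ^ 4 * (4 / (2 ^ k) ^ 2) :=
              mul_le_mul_of_nonneg_left hq2 (by positivity)
      refine (sum_le_card_nsmul _ _ _ h1).trans ?_
      rw [nsmul_eq_mul]
      have h3 := hH2 g (2 ^ k) hg1
      push_cast at h3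
      have h4 := sm1_two m g (2 ^ k) X C₀ K _ hg1' h2k hXp hC₀ (by linarith) (hcle.trans h3)
      by_cases hgΛ : Λ ^ 3 < g
      · rw [if_pos hgΛ]
        linarith
      · have h5 : (2 : ℝ) ^ k < X ^ 2 / Λ ^ 3 := by
          rw [lt_div_iff₀ (by positivity)]
          by_contra h6
          exact hcase ⟨not_lt.1 hgΛ, not_lt.1 h6⟩
        rw [if_pos h5]
        linarith
  refine (sum_le_sum fun g hg => sum_le_sum fun k hk => hclass g hg k hk).trans ?_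
  -- sums over `k`
  have hXX : (X : ℝ) ^ 2 ≠ 0 := by positivity
  have hk1 : ∀ j : ℕ, 1 ≤ j → ∑ k ∈ range (K' + 1), ((2 : ℝ) ^ k / X ^ 2) ^ j ≤
      2 * (2 * (K : ℝ)) ^ j := by
    intro j hj
    have h1 : ∑ k ∈ range (K' + 1), ((2 : ℝ) ^ k / X ^ 2) ^ j =
        (∑ k ∈ range (K' + 1), ((2 : ℝ) ^ k) ^ j) / ((X : ℝ) ^ 2) ^ j := by
      rw [sum_div]
      exact sum_congr rfl fun k _ => by rw [div_pow]
    rw [h1, div_le_iff₀ (by positivity)]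
    calc ∑ k ∈ range (K' + 1), ((2 : ℝ) ^ k) ^ j ≤ 2 * ((2 : ℝ) ^ K') ^ j := geo j K' hj
      _ ≤ 2 * (2 * (K * (X : ℝ) ^ 2)) ^ j := mul_le_mul_of_nonneg_left
          (pow_le_pow_left₀ (by positivity) h2K j) (by norm_num)
      _ = 2 * (2 * (K : ℝ)) ^ j * ((X : ℝ) ^ 2) ^ j := by
          rw [← mul_assoc 2 (K : ℝ), mul_pow, mul_assoc]
  have hk2 : ∑ k ∈ range (K' + 1), ((2 : ℝ) ^ k) ^ (m + 1) ≤
      2 * (2 * (K : ℝ)) ^ (m + 1) * (X : ℝ) ^ (2 * m + 2) := by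
    calc ∑ k ∈ range (K' + 1), ((2 : ℝ) ^ k) ^ (m + 1) ≤ 2 * ((2 : ℝ) ^ K') ^ (m + 1) :=
          geo (m + 1) K' (by omega)
      _ ≤ 2 * (2 * (K * (X : ℝ) ^ 2)) ^ (m + 1) := mul_le_mul_of_nonneg_left
          (pow_le_pow_left₀ (by positivity) h2K (m + 1)) (by norm_num)
      _ = 2 * (2 * (K : ℝ)) ^ (m + 1) * (X : ℝ) ^ (2 * m + 2) := by
          rw [← mul_assoc 2 (K : ℝ), mul_pow, ← pow_mul, mul_assoc]
          ring
  have hk3 : ∑ k ∈ (range (K' + 1)).filter (fun k => (2 : ℝ) ^ k < X ^ 2 / Λ ^ 3),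
      ((2 : ℝ) ^ k) ^ (m + 1) ≤ 2 * ((X : ℝ) ^ (2 * m + 2) / Λ ^ 3) := by
    refine (sm1_geo (m + 1) (K' + 1) (by omega) (X ^ 2 / Λ ^ 3) (by positivity)).trans ?_
    refine mul_le_mul_of_nonneg_left ?_ (by norm_num)
    rw [div_pow, ← pow_mul, show 2 * (m + 1) = 2 * m + 2 by ring]
    refine div_le_div_of_nonneg_left (by positivity) (by positivity) ?_
    calc Λ ^ 3 = (Λ ^ 3) ^ 1 := (pow_one _).symm
      _ ≤ (Λ ^ 3) ^ (m + 1) := pow_le_pow_right₀ (one_le_pow₀ hΛ) (by omega)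
  -- one `g`
  set u : ℝ := X ^ 6 * (X : ℝ) ^ (2 * m + 2) / Λ ^ 3 with hu
  have huY : u = Y * (1 / Λ) := by
    rw [hu, hY, div_pow, ← pow_mul, ← pow_add, show 6 + (2 * m + 2) = (m + 4) * 2 by ring]
    field_simp
  set a : ℝ := 2 * (K : ℝ) with ha
  have ha1 : 1 ≤ a := by
    rw [ha]
    linarith
  have ha0 : 0 < a := by linarith
  have hsum : ∀ g ∈ Icc 1 M, ∑ k ∈ range (K' + 1),
      (((if g ∣ W then 4 * κ * C₀ * Y * ((2 : ℝ) ^ k / X ^ 2) ^ (m + 2) * ((g : ℝ) ^ 2)⁻¹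
        else 2 * C₀ * Y * ((2 : ℝ) ^ k / X ^ 2) ^ (m + 3) * ((g : ℝ) ^ 2)⁻¹) +
      (if Λ ^ 3 < g then 4 * K * C₀ * X ^ 6 * ((2 : ℝ) ^ k) ^ (m + 1) * ((g : ℝ) ^ 2)⁻¹ else 0)) +
      (if (2 : ℝ) ^ k < X ^ 2 / Λ ^ 3 then
        4 * K * C₀ * X ^ 6 * ((2 : ℝ) ^ k) ^ (m + 1) * ((g : ℝ) ^ 2)⁻¹ else 0)) ≤
      (8 * κ * C₀ * Y * a ^ (m + 2) * ((g : ℝ) ^ 2)⁻¹ +
        (if w < g then 4 * C₀ * Y * a ^ (m + 3) * ((g : ℝ) ^ 2)⁻¹ else 0) +
      (if ⌊Λ ^ 3⌋₊ < g then 4 * C₀ * a ^ (m + 2) * (u * Λ ^ 3) * ((g : ℝ) ^ 2)⁻¹ else 0)) +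
      4 * a * C₀ * u * ((g : ℝ) ^ 2)⁻¹ := by
    intro g hg
    have hg1 : 1 ≤ g := (mem_Icc.1 hg).1
    have hg0 : (0 : ℝ) < g := by exact_mod_cast hg1
    rw [sum_add_distrib, sum_add_distrib]
    have hu0 : 0 ≤ u := by
      rw [hu]
      positivity
    have p1 : ∑ k ∈ range (K' + 1), (if g ∣ W then
        4 * κ * C₀ * Y * ((2 : ℝ) ^ k / X ^ 2) ^ (m + 2) * ((g : ℝ) ^ 2)⁻¹
        else 2 * C₀ * Y * ((2 : ℝ) ^ k / X ^ 2) ^ (m + 3) * ((g : ℝ) ^ 2)⁻¹) ≤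
        8 * κ * C₀ * Y * a ^ (m + 2) * ((g : ℝ) ^ 2)⁻¹ +
        (if w < g then 4 * C₀ * Y * a ^ (m + 3) * ((g : ℝ) ^ 2)⁻¹ else 0) := by
      by_cases h : g ∣ W
      · simp only [if_pos h]
        have e5 : ∑ k ∈ range (K' + 1),
            4 * κ * C₀ * Y * ((2 : ℝ) ^ k / X ^ 2) ^ (m + 2) * ((g : ℝ) ^ 2)⁻¹ =
            4 * κ * C₀ * Y * ((g : ℝ) ^ 2)⁻¹ * ∑ k ∈ range (K' + 1),
              ((2 : ℝ) ^ k / X ^ 2) ^ (m + 2) := by
          rw [mul_sum]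
          exact sum_congr rfl fun k _ => by ring
        rw [e5]
        have h6 := mul_le_mul_of_nonneg_left (hk1 (m + 2) (by omega))
          (show 0 ≤ 4 * κ * C₀ * Y * ((g : ℝ) ^ 2)⁻¹ by positivity)
        have h7 : (0 : ℝ) ≤ (if w < g then 4 * C₀ * Y * a ^ (m + 3) * ((g : ℝ) ^ 2)⁻¹
            else 0) := by
          split_ifs <;> positivity
        linarith
      · simp only [if_neg h]
        have hgw : w < g := by
          by_contra h'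
          exact h (hW g hg1 (not_lt.1 h'))
        rw [if_pos hgw]
        have e5 : ∑ k ∈ range (K' + 1),
            2 * C₀ * Y * ((2 : ℝ) ^ k / X ^ 2) ^ (m + 3) * ((g : ℝ) ^ 2)⁻¹ =
            2 * C₀ * Y * ((g : ℝ) ^ 2)⁻¹ * ∑ k ∈ range (K' + 1),
              ((2 : ℝ) ^ k / X ^ 2) ^ (m + 3) := by
          rw [mul_sum]
          exact sum_congr rfl fun k _ => by ring
        rw [e5]
        have h6 := mul_le_mul_of_nonneg_left (hk1 (m + 3) (by omega))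
          (show 0 ≤ 2 * C₀ * Y * ((g : ℝ) ^ 2)⁻¹ by positivity)
        have h7 : 0 ≤ 8 * κ * C₀ * Y * a ^ (m + 2) * ((g : ℝ) ^ 2)⁻¹ := by positivity
        linarith
    have p2 : ∑ k ∈ range (K' + 1), (if Λ ^ 3 < g then
        4 * K * C₀ * X ^ 6 * ((2 : ℝ) ^ k) ^ (m + 1) * ((g : ℝ) ^ 2)⁻¹ else 0) ≤
        (if ⌊Λ ^ 3⌋₊ < g then 4 * C₀ * a ^ (m + 2) * (u * Λ ^ 3) * ((g : ℝ) ^ 2)⁻¹ else 0) := by
      by_cases h : Λ ^ 3 < g
      · have h' : ⌊Λ ^ 3⌋₊ < g := (Nat.floor_lt (by positivity)).2 h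
        simp only [if_pos h, if_pos h']
        have e5 : ∑ k ∈ range (K' + 1),
            4 * K * C₀ * X ^ 6 * ((2 : ℝ) ^ k) ^ (m + 1) * ((g : ℝ) ^ 2)⁻¹ =
            4 * K * C₀ * X ^ 6 * ((g : ℝ) ^ 2)⁻¹ * ∑ k ∈ range (K' + 1),
              ((2 : ℝ) ^ k) ^ (m + 1) := by
          rw [mul_sum]
          exact sum_congr rfl fun k _ => by ring
        rw [e5]
        have h6 := mul_le_mul_of_nonneg_left hk2
          (show 0 ≤ 4 * K * C₀ * X ^ 6 * ((g : ℝ) ^ 2)⁻¹ by positivity)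
        refine h6.trans (le_of_eq ?_)
        have e6 : u * Λ ^ 3 = X ^ 6 * (X : ℝ) ^ (2 * m + 2) := by
          rw [hu]
          field_simp
        rw [e6, pow_succ a (m + 1)]
        have h2 : 2 * (K : ℝ) = a := ha.symm
        linear_combination (4 * C₀ * a ^ (m + 1) * (X ^ 6 * (X : ℝ) ^ (2 * m + 2)) *
          ((g : ℝ) ^ 2)⁻¹) * h2
      · simp only [if_neg h, sum_const_zero]
        split_ifs <;> positivity
    have p3 : ∑ k ∈ range (K' + 1), (if (2 : ℝ) ^ k < X ^ 2 / Λ ^ 3 then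
        4 * K * C₀ * X ^ 6 * ((2 : ℝ) ^ k) ^ (m + 1) * ((g : ℝ) ^ 2)⁻¹ else 0) ≤
        4 * a * C₀ * u * ((g : ℝ) ^ 2)⁻¹ := by
      rw [← sum_filter]
      have e5 : ∑ k ∈ (range (K' + 1)).filter (fun k => (2 : ℝ) ^ k < X ^ 2 / Λ ^ 3),
          4 * K * C₀ * X ^ 6 * ((2 : ℝ) ^ k) ^ (m + 1) * ((g : ℝ) ^ 2)⁻¹ =
          4 * K * C₀ * X ^ 6 * ((g : ℝ) ^ 2)⁻¹ *
            ∑ k ∈ (range (K' + 1)).filter (fun k => (2 : ℝ) ^ k < X ^ 2 / Λ ^ 3),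
              ((2 : ℝ) ^ k) ^ (m + 1) := by
        rw [mul_sum]
        exact sum_congr rfl fun k _ => by ring
      rw [e5]
      have h6 := mul_le_mul_of_nonneg_left hk3
        (show 0 ≤ 4 * K * C₀ * X ^ 6 * ((g : ℝ) ^ 2)⁻¹ by positivity)
      refine h6.trans (le_of_eq ?_)
      rw [hu, ha]
      ring
    linarith
  refine (sum_le_sum hsum).trans ?_
  have hu0 : 0 ≤ u := by
    rw [hu]
    positivity
  rw [sum_add_distrib, sum_add_distrib, sum_add_distrib, ← mul_sum, ← mul_sum, ← sum_filter,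
    ← sum_filter]
  have h8 : ∀ v : ℕ, (Icc 1 M).filter (fun g => v < g) = Ioc v M := by
    intro v
    ext x
    simp only [mem_filter, mem_Icc, mem_Ioc]
    omega
  rw [h8, h8, ← mul_sum, ← mul_sum]
  have hΛ3 : 1 ≤ Λ ^ 3 := one_le_pow₀ hΛ
  have hfl1 : 1 ≤ ⌊Λ ^ 3⌋₊ := Nat.le_floor (by push_cast; exact hΛ3)
  have hfl : 1 / ((⌊Λ ^ 3⌋₊ : ℕ) : ℝ) ≤ 2 / Λ ^ 3 := by
    have h1 : (1 : ℝ) ≤ ((⌊Λ ^ 3⌋₊ : ℕ) : ℝ) := by exact_mod_cast hfl1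
    have h2 := Nat.lt_floor_add_one (Λ ^ 3)
    rw [div_le_div_iff₀ (by linarith) (by positivity)]
    linarith
  have h9 := mul_le_mul_of_nonneg_left (inv_sq' M)
    (show 0 ≤ 8 * κ * C₀ * Y * a ^ (m + 2) by positivity)
  have h10 := mul_le_mul_of_nonneg_left (inv_sq w M hw)
    (show 0 ≤ 4 * C₀ * Y * a ^ (m + 3) by positivity)
  have h11 := mul_le_mul_of_nonneg_left ((inv_sq ⌊Λ ^ 3⌋₊ M hfl1).trans hfl)
    (show 0 ≤ 4 * C₀ * a ^ (m + 2) * (u * Λ ^ 3) by positivity)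
  have h12 := mul_le_mul_of_nonneg_left (inv_sq' M)
    (show 0 ≤ 4 * a * C₀ * u by positivity)
  refine (add_le_add (add_le_add (add_le_add h9 h10) h11) h12).trans ?_
  have e13 : 4 * C₀ * a ^ (m + 2) * (u * Λ ^ 3) * (2 / Λ ^ 3) = 8 * C₀ * a ^ (m + 2) * u := by
    field_simp
    ring
  rw [e13, huY]
  have hpa : a ^ (m + 2) ≤ a ^ (m + 3) := pow_le_pow_right₀ ha1 (by omega)
  have hpa1 : a ≤ a ^ (m + 3) := le_self_pow₀ ha1 (by omega)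
  have q1 : 8 * κ * C₀ * Y * a ^ (m + 2) * 2 ≤ 32 * a ^ (m + 3) * C₀ * Y * κ := by
    have : κ * C₀ * Y * a ^ (m + 2) ≤ κ * C₀ * Y * a ^ (m + 3) :=
      mul_le_mul_of_nonneg_left hpa (by positivity)
    have h0 : 0 ≤ κ * C₀ * Y * a ^ (m + 3) := by positivity
    linarith
  have q2 : 4 * C₀ * Y * a ^ (m + 3) * (1 / w) ≤ 32 * a ^ (m + 3) * C₀ * Y * (1 / w) := by
    have h0 : 0 ≤ C₀ * Y * a ^ (m + 3) * (1 / w) := by positivity
    linarith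
  have q3 : 8 * C₀ * a ^ (m + 2) * (Y * (1 / Λ)) + 4 * a * C₀ * (Y * (1 / Λ)) * 2 ≤
      32 * a ^ (m + 3) * C₀ * Y * (1 / Λ) := by
    have h0 : 0 ≤ C₀ * (Y * (1 / Λ)) := by positivity
    have h1 := mul_le_mul_of_nonneg_right hpa h0
    have h2 := mul_le_mul_of_nonneg_right hpa1 h0
    have h3 : 0 ≤ a ^ (m + 3) * (C₀ * (Y * (1 / Λ))) := by positivity
    linarith
  have e14 : 32 * a ^ (m + 3) * C₀ * Y * (1 / w + κ + 1 / Λ) =
      32 * a ^ (m + 3) * C₀ * Y * κ + 32 * a ^ (m + 3) * C₀ * Y * (1 / w) +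
        32 * a ^ (m + 3) * C₀ * Y * (1 / Λ) := by ring
  rw [e14]
  linarith

end Pool.Agent.H20.HFQ
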